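import Pool.Agent.Lib_helper54.DSF.CHA

/-!
# Primes whose Frobenius elements lie in a given open subgroup
-/

set_option autoImplicit false

namespace Pool.Agent.TT

open NumberField Topology
open Pool.Agent.RS.Main (DirichletGE primeSum)
open Pool.Agent.DS (Qbar GQ Induces FrobIn)

/-- The elements of an open normal subgroup of `GQ` extend to elements of `H`. -/
theorem fr_cov {K : Type} [Field K] [NumberField K] [Algebra K Qbar]
    (H : Subgroup (Qbar ≃ₐ[K] Qbar)) (hH : IsOpen (H : Set (Qbar ≃ₐ[K] Qbar))) :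
    ∃ (G : Type) (_ : Group G) (_ : Finite G) (π : GQ →* G), IsOpen (π.ker : Set GQ) ∧
      Function.Surjective π ∧ ∀ σ : GQ, π σ = 1 → ∃ h ∈ H, ∀ x : Qbar, h x = σ x := by
  have h1 : (H : Set (Qbar ≃ₐ[K] Qbar)) ∈ 𝓝 (1 : Qbar ≃ₐ[K] Qbar) :=
    hH.mem_nhds H.one_mem
  rw [krullTopology_mem_nhds_one_iff] at h1
  obtain ⟨E, hE, hEH⟩ := h1
  have hac : Algebra.IsAlgebraic ℚ Qbar := AlgebraicClosure.isAlgebraic ℚ
  let E0 : IntermediateField ℚ Qbar := E.restrictScalars ℚ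
  have hfin : FiniteDimensional ℚ E0 := by
    have : FiniteDimensional ℚ E := FiniteDimensional.trans ℚ K E
    exact this
  let N : IntermediateField ℚ Qbar := IntermediateField.normalClosure ℚ E0 Qbar
  have hacl : IsAlgClosure ℚ Qbar := Pool.Agent.DS.frx_ac
  have hN : Normal ℚ Qbar := IsAlgClosure.normal ℚ Qbar
  have hNn : Normal ℚ N := normalClosure.normal ℚ E0 Qbar
  have hNf : FiniteDimensional ℚ N := normalClosure.is_finiteDimensional ℚ E0 Qbar
  have hEN : E0 ≤ N := IntermediateField.le_normalClosure E0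
  have hker : (AlgEquiv.restrictNormalHom (F := ℚ) (K₁ := Qbar) N).ker = N.fixingSubgroup :=
    IntermediateField.restrictNormalHom_ker _
  refine ⟨N ≃ₐ[ℚ] N, inferInstance, inferInstance,
    AlgEquiv.restrictNormalHom (F := ℚ) (K₁ := Qbar) N, ?_, ?_, ?_⟩
  · rw [hker]
    exact N.fixingSubgroup_isOpen
  · exact AlgEquiv.restrictNormalHom_surjective Qbar
  · intro σ hσ
    have hfix : σ ∈ N.fixingSubgroup := by
      rw [← hker]
      exact hσ
    have hfix' : ∀ x : Qbar, x ∈ E → σ x = x := by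
      intro x hx
      have hxN : x ∈ N := hEN hx
      exact (IntermediateField.mem_fixingSubgroup_iff N σ).mp hfix x hxN
    let h : Qbar ≃ₐ[K] Qbar := AlgEquiv.ofRingEquiv (f := (σ : Qbar ≃+* Qbar)) (by
      intro a
      exact hfix' _ (E.algebraMap_mem a))
    refine ⟨h, ?_, fun x => rfl⟩
    apply hEH
    rw [SetLike.mem_coe, IntermediateField.mem_fixingSubgroup_iff]
    intro x hx
    exact hfix' x hx

/-- A set of primes of positive lower density is not contained in a finite set. -/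
theorem fr_inf {S : Set ℕ} {δ : ℝ} (hδ : 0 < δ) (h : DirichletGE S δ) (B : Finset ℕ) :
    ∃ p : ℕ, p.Prime ∧ p ∈ S ∧ p ∉ B := by
  classical
  by_contra hcon
  push Not at hcon
  obtain ⟨C, hC⟩ := h
  have hb : ∀ s : ℝ, 1 < s → primeSum S s ≤ B.card := by
    intro s hs
    unfold primeSum
    let B' : Finset Nat.Primes := B.subtype Nat.Prime
    have hz : ∀ p : Nat.Primes, p ∉ B' → S.indicator (fun q : ℕ => (q : ℝ) ^ (-s)) p = 0 := by
      intro p hp
      apply Set.indicator_of_notMem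
      intro hpS
      apply hp
      exact Finset.mem_subtype.mpr (hcon p p.2 hpS)
    rw [tsum_eq_sum hz]
    calc ∑ p ∈ B', S.indicator (fun q : ℕ => (q : ℝ) ^ (-s)) (p : ℕ) ≤ ∑ p ∈ B', (1 : ℝ) := by
          apply Finset.sum_le_sum
          intro p _
          by_cases hp : (p : ℕ) ∈ S
          · rw [Set.indicator_of_mem hp]
            apply Real.rpow_le_one_of_one_le_of_nonpos
            · exact_mod_cast p.2.one_lt.le
            · linarith
          · rw [Set.indicator_of_notMem hp]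
            exact zero_le_one
      _ = B'.card := by rw [Finset.sum_const, nsmul_eq_mul, mul_one]
      _ ≤ B.card := by
          have : B'.card ≤ B.card := by
            have h5 : B'.card = (B.filter Nat.Prime).card := Finset.card_subtype _ _
            rw [h5]
            exact Finset.card_filter_le _ _
          exact_mod_cast this
  set D : ℝ := (B.card + C + 1) / δ with hD
  have h1 := hC (1 + Real.exp (-D)) (by linarith [Real.exp_pos (-D)])
  have h2 := hb (1 + Real.exp (-D)) (by linarith [Real.exp_pos (-D)])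
  have h3 : Real.log (1 / (1 + Real.exp (-D) - 1)) = D := by
    rw [add_sub_cancel_left, one_div, ← Real.exp_neg, neg_neg, Real.log_exp]
  rw [h3, hD, mul_div_cancel₀ _ hδ.ne'] at h1
  linarith

/-- Existence of a Frobenius element at a given prime. -/
theorem fr_frob {p : ℕ} (hp : p.Prime) (Q : Ideal (𝓞 Qbar)) (hQ : Q.IsPrime)
    (hpQ : (p : 𝓞 Qbar) ∈ Q) : ∃ σ : GQ, Induces Q p σ := by
  have : Fact p.Prime := ⟨hp⟩
  have hQ2 : Q.comap (algebraMap ℤ (𝓞 Qbar)) = Ideal.span {(p : ℤ)} := by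
    have hmax : (Ideal.span {(p : ℤ)}).IsMaximal := Int.ideal_span_isMaximal_of_prime p
    symm
    apply hmax.eq_of_le
    · exact (Ideal.comap_isPrime _ _).ne_top
    · rw [Ideal.span_singleton_le_iff_mem, Ideal.mem_comap]
      simpa using hpQ
  let _ : TopologicalSpace (𝓞 Qbar) := ⊥
  have : DiscreteTopology (𝓞 Qbar) := ⟨rfl⟩
  have : ContinuousSMul GQ (𝓞 Qbar) :=
    continuousSMul_iff_stabilizer_isOpen.mpr Pool.Agent.DS.frx_stab
  have : SMulCommClass GQ ℤ (𝓞 Qbar) := ⟨fun g a x =>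
    map_zsmul (DistribSMul.toAddMonoidHom (𝓞 Qbar) g) a x⟩
  have : Algebra.IsInvariant ℤ (𝓞 Qbar) GQ := ⟨Pool.Agent.DS.frx_fixed⟩
  have : Q.LiesOver (Ideal.span {(p : ℤ)}) := ⟨hQ2.symm⟩
  have : CharP (𝓞 Qbar ⧸ Q) p := Pool.Agent.DS.frx_charP hp Q hpQ
  have := Pool.Agent.DS.frx_gal
  have := Pool.Agent.DS.frx_alg
  have hmax : (Ideal.span {(p : ℤ)}).IsMaximal := Int.ideal_span_isMaximal_of_prime p
  have hmaxQ : Q.IsMaximal := Ideal.isMaximal_of_isIntegral_of_isMaximal_comap Q (by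
    rw [hQ2]; exact hmax)
  let _ := Ideal.Quotient.field (Ideal.span {(p : ℤ)})
  let _ := Ideal.Quotient.field Q
  have : Algebra.IsAlgebraic (ℤ ⧸ Ideal.span {(p : ℤ)}) (𝓞 Qbar ⧸ Q) := inferInstance
  have : Finite (ℤ ⧸ Ideal.span {(p : ℤ)}) := inferInstance
  have : PerfectField (𝓞 Qbar ⧸ Q) :=
    Algebra.IsAlgebraic.perfectField (ℤ ⧸ Ideal.span {(p : ℤ)})
  have hbij : Function.Bijective (frobenius (𝓞 Qbar ⧸ Q) p) := bijective_frobenius _ p
  let φ : (𝓞 Qbar ⧸ Q) ≃ₐ[ℤ ⧸ Ideal.span {(p : ℤ)}] (𝓞 Qbar ⧸ Q) :=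
    AlgEquiv.ofBijective ({ (frobenius (𝓞 Qbar ⧸ Q) p) with
      commutes' := by
        intro a
        exact Pool.Agent.DS.frx_pow (p := p) a }) hbij
  have hφ : ∀ x, φ x = x ^ p := fun x => rfl
  obtain ⟨⟨σ, hσ⟩, hσ2⟩ := Ideal.Quotient.stabilizerHom_surjective_of_profinite (G := GQ)
    (Ideal.span {(p : ℤ)}) Q φ
  refine ⟨σ, ?_⟩
  intro x y hxy
  have h1 := congrArg (fun f => f (Ideal.Quotient.mk Q x)) hσ2
  have h1' : Ideal.Quotient.stabilizerHom Q (Ideal.span {(p : ℤ)}) GQ ⟨σ, hσ⟩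
      (Ideal.Quotient.mk Q x) = (Ideal.Quotient.mk Q x) ^ p := by rw [← hφ]; exact h1
  have h2 : y = σ • x := by
    apply NumberField.RingOfIntegers.coe_injective
    exact hxy
  rw [← Ideal.Quotient.eq_zero_iff_mem, map_sub, map_pow, sub_eq_zero, h2, ← h1']
  rfl

/-- The primes that we need. -/
theorem fr_main {K : Type} [Field K] [NumberField K] [Algebra K Qbar]
    (H : Subgroup (Qbar ≃ₐ[K] Qbar)) (hH : IsOpen (H : Set (Qbar ≃ₐ[K] Qbar))) (B : Finset ℕ) :
    ∃ p : ℕ, p.Prime ∧ p ∉ B ∧ ∀ Q : Ideal (𝓞 Qbar), Q.IsPrime → (p : 𝓞 Qbar) ∈ Q →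
      ∃ σ ∈ H, ∀ x y : 𝓞 Qbar, (y : Qbar) = σ x → y - x ^ p ∈ Q := by
  obtain ⟨G, _, _, π, hπ, hsurj, hcov⟩ := fr_cov H hH
  have hcard : 0 < Nat.card G := Nat.card_pos
  obtain ⟨p, hp, hpS, hpB⟩ := fr_inf (δ := 1 / (2 * Nat.card G)) (by positivity)
    (Pool.Agent.DS.cha π hπ hsurj {1} (by
      intro x hx g
      rw [Set.mem_singleton_iff] at hx ⊢
      rw [hx, mul_one, mul_inv_cancel]) (by positivity) (by
      have h1 : Nat.card ({1} : Set G) = 1 := by simp
      have h2 : (0 : ℝ) < Nat.card G := by exact_mod_cast hcard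
      rw [h1, Nat.cast_one]
      apply one_div_lt_one_div_of_lt h2
      linarith)) B
  refine ⟨p, hp, hpB, ?_⟩
  intro Q hQ hpQ
  obtain ⟨σ, hσ⟩ := fr_frob hp Q hQ hpQ
  have h1 : π σ = 1 := by
    have := hpS Q hQ hpQ σ hσ
    exact this
  obtain ⟨h, hh, hx⟩ := hcov σ h1
  refine ⟨h, hh, ?_⟩
  intro x y hxy
  apply hσ x y
  rw [hxy, hx]

end Pool.Agent.TT
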