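import Pool.Agent.Lib_helper61.TT.LO
import Pool.Agent.Lib_helper61.TT.FR

/-!
# The place of `Qbar` above `p`, the residue field and the cyclotomic character
-/

set_option autoImplicit false

namespace Pool.Agent.TT

open Finset NumberField Polynomial

variable {p : ℕ} [hp : Fact p.Prime]

/-- Algebraic integers have norm at most one. -/
theorem pl_int (κ : Qbar →+* PadicAlgCl p) (x : 𝓞 Qbar) : κ x ∈ OO p := by
  have h1 : IsIntegral ℤ (κ (x : Qbar)) := by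
    have h := x.2
    have h2 : IsIntegral ℤ (x : Qbar) := h
    exact h2.map κ.toIntAlgHom
  have h2 : IsIntegral (OO p) (κ (x : Qbar)) := h1.tower_top
  obtain ⟨y, hy⟩ := IsIntegrallyClosed.isIntegral_iff.mp h2
  rw [← hy]
  exact y.2

/-- The ring homomorphism to the ring of integers. -/
noncomputable def plHom (κ : Qbar →+* PadicAlgCl p) : 𝓞 Qbar →+* OO p :=
  (κ.comp (algebraMap (𝓞 Qbar) Qbar)).codRestrict (OO p) (fun x => pl_int κ x)

theorem plHom_coe (κ : Qbar →+* PadicAlgCl p) (x : 𝓞 Qbar) :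
    (plHom κ x : PadicAlgCl p) = κ x := rfl

/-- The prime ideal of the place `κ`. -/
noncomputable def plIdeal (κ : Qbar →+* PadicAlgCl p) : Ideal (𝓞 Qbar) :=
  (IsLocalRing.maximalIdeal (OO p)).comap (plHom κ)

theorem plIdeal_prime (κ : Qbar →+* PadicAlgCl p) : (plIdeal κ).IsPrime :=
  Ideal.comap_isPrime _ _

theorem mem_plIdeal (κ : Qbar →+* PadicAlgCl p) (x : 𝓞 Qbar) : x ∈ plIdeal κ ↔ ‖κ x‖ < 1 := by
  unfold plIdeal
  rw [Ideal.mem_comap, Valuation.mem_maximalIdeal_iff, PadicAlgCl.valuation_def]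
  exact Iff.rfl

theorem pl_p_mem (κ : Qbar →+* PadicAlgCl p) : (p : 𝓞 Qbar) ∈ plIdeal κ := by
  rw [mem_plIdeal]
  have h1 : κ ((p : 𝓞 Qbar) : Qbar) = (p : PadicAlgCl p) := by
    have h2 : ((p : 𝓞 Qbar) : Qbar) = (p : Qbar) := by simp
    rw [h2, map_natCast]
  rw [h1]
  exact te_norm_p_lt

/-- Powers of a Frobenius element. -/
theorem pl_frob_pow {K : Type} [Field K] [Algebra K Qbar] {Q : Ideal (𝓞 Qbar)}
    {σ : Qbar ≃ₐ[K] Qbar} (hσ : ∀ x y : 𝓞 Qbar, (y : Qbar) = σ x → y - x ^ p ∈ Q) (r : ℕ) :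
    ∀ x y : 𝓞 Qbar, (y : Qbar) = (σ ^ r) x → y - x ^ p ^ r ∈ Q := by
  induction r with
  | zero =>
    intro x y h
    have h1 : y = x := by
      apply RingOfIntegers.ext
      rw [h]
      rfl
    rw [h1, pow_zero, pow_one, sub_self]
    exact Q.zero_mem
  | succ r ih =>
    intro x y h
    have hz : IsIntegral ℤ ((σ ^ r) (x : Qbar)) := by
      have h2 : IsIntegral ℤ (x : Qbar) := x.2
      exact h2.map (((σ ^ r : Qbar ≃ₐ[K] Qbar) : Qbar →ₐ[K] Qbar) : Qbar →+* Qbar).toIntAlgHom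
    let z : 𝓞 Qbar := ⟨(σ ^ r) (x : Qbar), hz⟩
    have h1 := ih x z rfl
    have h2 : y - z ^ p ∈ Q := by
      apply hσ
      rw [h, pow_succ']
      rfl
    have h3 : z ^ p - (x ^ p ^ r) ^ p ∈ Q := by
      obtain ⟨w, hw⟩ := sub_dvd_pow_sub_pow z (x ^ p ^ r) p
      rw [hw]
      exact Ideal.mul_mem_right _ _ h1
    have h4 : y - x ^ p ^ (r + 1) = (y - z ^ p) + (z ^ p - (x ^ p ^ r) ^ p) := by
      rw [pow_succ p r, pow_mul]
      ring
    rw [h4]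
    exact Q.add_mem h2 h3

/-- The value of the cyclotomic character at a Frobenius element. -/
theorem pl_cyc {K : Type} [Field K] [Algebra K Qbar] {ℓ : ℕ} [hℓ : Fact ℓ.Prime] (hne : ℓ ≠ p)
    (κ : Qbar →+* PadicAlgCl p) {σ : Qbar ≃ₐ[K] Qbar}
    (hσ : ∀ x y : 𝓞 Qbar, (y : Qbar) = σ x → y - x ^ p ∈ plIdeal κ) :
    cyc ℓ σ = (p : PadicAlgCl ℓ) := by
  have : ∀ i : ℕ, NeZero (ℓ ^ i) := fun i => ⟨pow_ne_zero _ hℓ.out.ne_zero⟩
  have hinst : ∀ i : ℕ, HasEnoughRootsOfUnity Qbar (ℓ ^ i) := by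
    intro i
    have : NeZero ((ℓ ^ i : ℕ) : Qbar) := ⟨by exact_mod_cast pow_ne_zero _ hℓ.out.ne_zero⟩
    infer_instance
  have key : ((cyclotomicCharacter Qbar ℓ (σ : Qbar ≃+* Qbar) : ℤ_[ℓ]ˣ) : ℤ_[ℓ]) =
      ((p : ℕ) : ℤ_[ℓ]) := by
    apply PadicInt.ext_of_toZModPow.mp
    intro n
    obtain ⟨η, hη⟩ := HasEnoughRootsOfUnity.exists_primitiveRoot Qbar (ℓ ^ n)
    have h1 := cyclotomicCharacter.spec ℓ (σ : Qbar ≃+* Qbar) η hη.pow_eq_one
    have hcop : Nat.Coprime (ℓ ^ n) p :=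
      Nat.Coprime.pow_left n ((Nat.coprime_primes hℓ.out hp.out).mpr hne)
    have hint : IsIntegral ℤ η := hη.isIntegral (pow_pos hℓ.out.pos n)
    have hint2 : IsIntegral ℤ (σ η) :=
      hint.map (((σ : Qbar ≃ₐ[K] Qbar) : Qbar →ₐ[K] Qbar) : Qbar →+* Qbar).toIntAlgHom
    have h2 := hσ ⟨η, hint⟩ ⟨σ η, hint2⟩ rfl
    rw [mem_plIdeal] at h2
    have h3 : ‖κ (σ η) - κ (η ^ p)‖ < 1 := by
      rw [← map_sub]
      exact h2
    have h4 : κ (σ η) = κ (η ^ p) := by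
      apply lo_unique hcop _ _ h3
      · rw [← map_pow, ← map_pow, hη.pow_eq_one, map_one, map_one]
      · rw [← map_pow, ← pow_mul, mul_comm, pow_mul, hη.pow_eq_one, one_pow, map_one]
    have h5 : σ η = η ^ p := κ.injective h4
    have h6 : η ^ ((cyclotomicCharacter Qbar ℓ (σ : Qbar ≃+* Qbar)).val.toZModPow n).val = η ^ p := by
      rw [← h1, ← h5]
      rfl
    rw [map_natCast]
    have h7 : ((cyclotomicCharacter Qbar ℓ (σ : Qbar ≃+* Qbar)).val.toZModPow n).val ≡ p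
        [MOD ℓ ^ n] := by
      have h8 := (hη.isOfFinOrder (NeZero.ne _)).pow_inj_mod.mp h6
      rw [← hη.eq_orderOf] at h8
      exact h8
    rw [← ZMod.natCast_eq_natCast_iff] at h7
    rw [← h7, ZMod.natCast_zmod_val]
  unfold cyc
  rw [key]
  simp

end Pool.Agent.TT
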