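import Mathlib

/-!
# Ring homomorphisms with values in the fixed points of Frobenius
-/

set_option autoImplicit false

namespace Pool.Agent.TT

open Finset Polynomial

variable {p : ℕ} [hp : Fact p.Prime]

theorem rm_root_aux {R : Type} [CommRing R] [IsDomain R] (j : ZMod p →+* R) {y : R} (hy : y ^ p = y) : ∃ a : ZMod p, j a = y := by
  classical
  have h1 : ∏ a : ZMod p, (X - C a) = (X ^ p - X : (ZMod p)[X]) := by
    have h2 := FiniteField.roots_X_pow_card_sub_X (ZMod p)
    rw [ZMod.card] at h2
    have hdeg : (X ^ p - X : (ZMod p)[X]).natDegree = p :=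
      FiniteField.X_pow_card_sub_X_natDegree_eq (ZMod p) hp.out.one_lt
    have hmonic : (X ^ p - X : (ZMod p)[X]).Monic := by
      apply monic_X_pow_sub
      rw [degree_X]
      exact_mod_cast hp.out.one_lt
    have h3 := prod_multiset_X_sub_C_of_monic_of_roots_card_eq hmonic (by
      rw [h2, hdeg, ← Finset.card_def, Finset.card_univ, ZMod.card])
    rw [h2] at h3
    exact h3
  have h4 := congrArg (Polynomial.eval₂ j y) h1
  rw [Polynomial.eval₂_finsetProd, eval₂_sub, eval₂_X_pow, eval₂_X, hy, sub_self,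
    Finset.prod_eq_zero_iff] at h4
  obtain ⟨a, _, ha⟩ := h4
  rw [eval₂_sub, eval₂_X, eval₂_C, sub_eq_zero] at ha
  exact ⟨a, ha.symm⟩
theorem rm_root {R : Type} [CommRing R] [IsDomain R] [CharP R p] {y : R} (hy : y ^ p = y) :
    ∃ a : ZMod p, ZMod.castHom (dvd_refl p) R a = y :=
  rm_root_aux _ hy

theorem rm_exists {R S : Type} [CommRing R] [IsDomain R] [CharP R p] [CommRing S] (f : S →+* R)
    (hf : ∀ x, f x ^ p = f x) :
    ∃ φ : S →+* ZMod p, ∀ x, ZMod.castHom (dvd_refl p) R (φ x) = f x := by
  classical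
  have hinj : Function.Injective (ZMod.castHom (dvd_refl p) R) := ZMod.castHom_injective R
  choose g hg using fun x => rm_root (p := p) (hf x)
  refine ⟨{ toFun := g, map_one' := ?_, map_mul' := ?_, map_zero' := ?_, map_add' := ?_ }, hg⟩
  · apply hinj; rw [hg, map_one, map_one]
  · intro x y; apply hinj; rw [hg, map_mul, map_mul, hg, hg]
  · apply hinj; rw [hg, map_zero, map_zero]
  · intro x y; apply hinj; rw [hg, map_add, map_add, hg, hg]

end Pool.Agent.TT
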