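import Pool.Agent.Lib_helper61.TT.GN

/-!
# Teichmueller characters with values in the algebraic closure of the `p`-adic numbers
-/

set_option autoImplicit false

namespace Pool.Agent.TT

open Finset Polynomial

variable {p : ℕ} [hp : Fact p.Prime]

theorem te_norm_p : ‖(p : PadicAlgCl p)‖ = (p : ℝ)⁻¹ := by
  have h := PadicAlgCl.norm_extends p (p : ℚ_[p])
  rw [Padic.norm_p] at h
  rw [← h]
  simp

theorem te_norm_p_lt : ‖(p : PadicAlgCl p)‖ < 1 := by
  rw [te_norm_p]
  exact inv_lt_one_of_one_lt₀ (by exact_mod_cast hp.out.one_lt)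

theorem te_norm_natCast {n : ℕ} (hn : Nat.Coprime n p) : ‖(n : PadicAlgCl p)‖ = 1 := by
  have h := PadicAlgCl.norm_extends p (n : ℚ_[p])
  have h1 : ‖(n : ℚ_[p])‖ = 1 := Padic.norm_natCast_eq_one_iff.mpr hn.symm
  rw [h1] at h
  rw [← h]
  simp

/-- Roots of unity of order prime to `p` that are congruent to `1` are equal to `1`. -/
theorem te_root_eq_one {e : ℕ} (he : Nat.Coprime e p) {η : PadicAlgCl p} (h : η ^ e = 1)
    (hlt : ‖1 - η‖ < 1) : η = 1 := by
  have he0 : e ≠ 0 := by
    rintro rfl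
    rw [Nat.coprime_zero_left] at he
    exact hp.out.one_lt.ne' he
  have hn : ‖η‖ = 1 := by
    have h2 : ‖η‖ ^ e = 1 := by rw [← norm_pow, h, norm_one]
    exact (pow_eq_one_iff_of_nonneg (norm_nonneg _) he0).mp h2
  have h1 := gn_zeta_pow hn e
  rw [h, sub_self, zero_add, norm_mul, te_norm_natCast he, one_mul] at h1
  by_contra hne
  have hpos : 0 < ‖1 - η‖ := by
    rw [norm_pos_iff]
    intro h3
    exact hne (sub_eq_zero.mp h3).symm
  nlinarith

/-- The ring of integers of the algebraic closure of `ℚ_[p]`. -/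
noncomputable abbrev OO (p : ℕ) [Fact p.Prime] : ValuationSubring (PadicAlgCl p) :=
  (Valued.v : Valuation (PadicAlgCl p) NNReal).valuationSubring

theorem te_mem {x : PadicAlgCl p} : x ∈ OO p ↔ ‖x‖ ≤ 1 := by
  rw [Valuation.mem_valuationSubring_iff, PadicAlgCl.valuation_def]
  exact Iff.rfl

theorem te_res {x : OO p} :
    IsLocalRing.residue (OO p) x = 0 ↔ ‖(x : PadicAlgCl p)‖ < 1 := by
  rw [IsLocalRing.residue_eq_zero_iff, Valuation.mem_maximalIdeal_iff, PadicAlgCl.valuation_def]
  exact Iff.rfl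

theorem te_res_eq {x y : OO p} (h : IsLocalRing.residue (OO p) x = IsLocalRing.residue (OO p) y) :
    ‖(x : PadicAlgCl p) - (y : PadicAlgCl p)‖ < 1 := by
  rw [← sub_eq_zero, ← map_sub, te_res] at h
  exact h

theorem te_exists_aux {r : ℕ} (F : Type) [Field F] [Fintype F] (hcard : Fintype.card F = p ^ r)
    {k : Type} [Field k] (res : OO p →+* k)
    (hres : ∀ x : OO p, res x = 0 ↔ ‖(x : PadicAlgCl p)‖ < 1) :
    ∃ ω : MulChar F (PadicAlgCl p), IsTeich ω := by
  classical
  have hr : r ≠ 0 := by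
    rintro rfl
    rw [pow_zero] at hcard
    have := Fintype.one_lt_card (α := F)
    omega
  have hp1 := hp.out.one_lt
  have hpr : 1 < p ^ r := Nat.one_lt_pow hr hp1
  set e : ℕ := p ^ r - 1 with he
  have he0 : 0 < e := by omega
  have : NeZero e := ⟨he0.ne'⟩
  have hcop : Nat.Coprime e p := by
    have h1 : Nat.Coprime e (p ^ r) := by
      have h2 : p ^ r = e + 1 := by omega
      rw [h2]
      exact (Nat.coprime_self_add_right).mpr (Nat.coprime_one_right e)
    exact Nat.Coprime.coprime_dvd_right (dvd_pow_self p hr) h1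
  have : NeZero (e : PadicAlgCl p) := ⟨by exact_mod_cast he0.ne'⟩
  obtain ⟨ξ, hξ⟩ := HasEnoughRootsOfUnity.exists_primitiveRoot (PadicAlgCl p) e
  -- roots of unity have norm one
  have hnorm : ∀ x : PadicAlgCl p, x ^ e = 1 → ‖x‖ = 1 := by
    intro x hx
    have h2 : ‖x‖ ^ e = 1 := by rw [← norm_pow, hx, norm_one]
    exact (pow_eq_one_iff_of_nonneg (norm_nonneg _) he0.ne').mp h2
  have huniq : ∀ x y : PadicAlgCl p, x ^ e = 1 → y ^ e = 1 → ‖x - y‖ < 1 → x = y := by
    intro x y hx hy hxy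
    have hx0 : x ≠ 0 := by
      rintro rfl
      rw [zero_pow he0.ne'] at hx
      exact zero_ne_one hx
    have h1 : (y / x) ^ e = 1 := by rw [div_pow, hx, hy, div_one]
    have h2 : ‖1 - y / x‖ < 1 := by
      have h3 : 1 - y / x = (x - y) / x := by field_simp
      rw [h3, norm_div, hnorm x hx, div_one]
      exact hxy
    have h4 := te_root_eq_one hcop h1 h2
    field_simp at h4
    exact h4.symm
  have hreseq : ∀ x y : OO p, res x = res y → ‖(x : PadicAlgCl p) - (y : PadicAlgCl p)‖ < 1 := by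
    intro x y h
    rw [← sub_eq_zero, ← map_sub, hres] at h
    exact h
  have hξmem : ξ ∈ OO p := te_mem.mpr (hnorm ξ hξ.pow_eq_one).le
  let ξ' : OO p := ⟨ξ, hξmem⟩
  have hξ' : IsPrimitiveRoot (res ξ') e := by
    refine IsPrimitiveRoot.mk_of_lt (res ξ') he0 ?_ ?_
    · rw [← map_pow]
      have : ξ' ^ e = 1 := by
        apply Subtype.ext
        exact hξ.pow_eq_one
      rw [this, map_one]
    · intro l hl hle h
      have h1 : res (ξ' ^ l) = res 1 := by rw [map_pow, h, map_one]
      have h2 := hreseq _ _ h1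
      have h3 : ‖ξ ^ l - 1‖ < 1 := h2
      have h4 : (ξ ^ l) ^ e = 1 := by rw [← pow_mul, mul_comm, pow_mul, hξ.pow_eq_one, one_pow]
      have h5 := huniq _ _ h4 (one_pow e) h3
      exact hξ.pow_ne_one_of_pos_of_lt hl.ne' hle h5
  have : CharP k p := by
    have h0 : ((p : ℕ) : k) = 0 := by
      have h1 : res ((p : ℕ) : OO p) = 0 := by
        rw [hres]
        exact te_norm_p_lt
      rwa [map_natCast] at h1
    rcases (Nat.dvd_prime hp.out).mp (ringChar.dvd h0) with h1 | h1
    · exfalso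
      have := ringChar.charP k
      rw [h1] at this
      have h3 : ((1 : ℕ) : k) = 0 := CharP.cast_eq_zero _ _
      rw [Nat.cast_one] at h3
      exact one_ne_zero h3
    · have h4 := ringChar.charP k
      rwa [h1] at h4
  let _ : Algebra (ZMod p) k := ZMod.algebra k p
  have : CharP F p := by
    have h1 : ringChar F ∣ p := by
      have h2 : ((p : ℕ) : F) = 0 := by
        have h3 : ((Fintype.card F : ℕ) : F) = 0 := FiniteField.cast_card_eq_zero F
        rw [hcard] at h3
        push_cast at h3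
        exact pow_eq_zero_iff hr |>.mp h3
      exact ringChar.dvd h2
    rcases (Nat.dvd_prime hp.out).mp h1 with h1 | h1
    · exfalso
      have := ringChar.charP F
      rw [h1] at this
      have h3 : ((1 : ℕ) : F) = 0 := CharP.cast_eq_zero _ _
      rw [Nat.cast_one] at h3
      exact one_ne_zero h3
    · have h4 := ringChar.charP F
      rwa [h1] at h4
  let _ : Algebra (ZMod p) F := ZMod.algebra F p
  have hsplit : ((X ^ Fintype.card F - X : (ZMod p)[X]).map (algebraMap (ZMod p) k)).Splits := by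
    have h1 : (X ^ Fintype.card F - X : (ZMod p)[X]).map (algebraMap (ZMod p) k) =
        X * (X ^ e - 1) := by
      rw [Polynomial.map_sub, Polynomial.map_pow, Polynomial.map_X, hcard]
      have h2 : p ^ r = e + 1 := by omega
      rw [h2]
      ring
    rw [h1]
    exact Splits.mul Splits.X (X_pow_sub_one_splits hξ')
  obtain ⟨emb⟩ : Nonempty (F →+* k) :=
    ⟨(IsSplittingField.lift F (X ^ Fintype.card F - X : (ZMod p)[X]) hsplit).toRingHom⟩
  -- lifting
  have hlift : ∀ y : F, ∃ x : OO p, res x = emb y ∧ (y = 0 → (x : PadicAlgCl p) = 0) ∧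
      (y ≠ 0 → (x : PadicAlgCl p) ^ e = 1) := by
    intro y
    by_cases hy : y = 0
    · refine ⟨0, ?_, fun _ => rfl, fun h => absurd hy h⟩
      rw [hy, map_zero, map_zero]
    · have h1 : (emb y) ^ e = 1 := by
        rw [← map_pow]
        have h2 : y ^ e = 1 := by
          have := FiniteField.pow_card_sub_one_eq_one y hy
          rw [hcard] at this
          exact this
        rw [h2, map_one]
      obtain ⟨i, _, hi⟩ := hξ'.eq_pow_of_pow_eq_one h1
      refine ⟨ξ' ^ i, ?_, fun h => absurd h hy, fun _ => ?_⟩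
      · rw [map_pow, hi]
      · change (ξ ^ i) ^ e = 1
        rw [← pow_mul, mul_comm, pow_mul, hξ.pow_eq_one, one_pow]
  choose T hT hT0 hT1 using hlift
  have hmul : ∀ x y : F, (T (x * y) : PadicAlgCl p) = T x * T y := by
    intro x y
    by_cases hx : x = 0
    · rw [hT0 x hx, zero_mul, hT0 (x * y) (by rw [hx, zero_mul])]
    by_cases hy : y = 0
    · rw [hT0 y hy, mul_zero, hT0 (x * y) (by rw [hy, mul_zero])]
    apply huniq
    · exact hT1 _ (mul_ne_zero hx hy)
    · rw [mul_pow, hT1 x hx, hT1 y hy, one_mul]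
    · have h1 : res (T (x * y)) = res (T x * T y) := by
        rw [map_mul, hT, hT, hT, map_mul]
      have h2 := hreseq _ _ h1
      have h3 : ((T x * T y : OO p) : PadicAlgCl p) = (T x : PadicAlgCl p) * T y := rfl
      rw [h3] at h2
      exact h2
  have hone : (T 1 : PadicAlgCl p) = 1 := by
    apply huniq
    · exact hT1 _ one_ne_zero
    · exact one_pow e
    · have h1 : res (T 1) = res 1 := by rw [hT, map_one, map_one]
      have h2 := hreseq _ _ h1
      have h3 : ((1 : OO p) : PadicAlgCl p) = 1 := rfl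
      rw [h3] at h2
      exact h2
  refine ⟨{ toFun := fun x => T x, map_one' := hone, map_mul' := hmul, map_nonunit' := ?_ }, ?_⟩
  · intro a ha
    apply hT0
    by_contra h
    exact ha (isUnit_iff_ne_zero.mpr h)
  · intro x y
    change ‖(T (x + y) : PadicAlgCl p) - T x - T y‖ < 1
    have h1 : res (T (x + y)) = res (T x + T y) := by
      rw [map_add, hT, hT, hT, map_add]
    have h2 := hreseq _ _ h1
    have h3 : ((T x + T y : OO p) : PadicAlgCl p) = (T x : PadicAlgCl p) + T y := rfl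
    rw [h3] at h2
    rw [sub_sub]
    exact h2

/-- Existence of the Teichmueller character. -/
theorem te_exists {r : ℕ} (F : Type) [Field F] [Fintype F] (hcard : Fintype.card F = p ^ r) :
    ∃ ω : MulChar F (PadicAlgCl p), IsTeich ω :=
  te_exists_aux F hcard (IsLocalRing.residue (OO p)) (fun _ => te_res)

/-- The primitive `p`-th root of unity. -/
theorem te_zeta (p : ℕ) [hp : Fact p.Prime] : ∃ ζ : PadicAlgCl p, IsPrimitiveRoot ζ p ∧ ‖ζ‖ = 1 ∧
    0 < ‖1 - ζ‖ ∧ ‖1 - ζ‖ < 1 ∧ ‖(p : PadicAlgCl p)‖ ≤ ‖1 - ζ‖ ^ (p - 1) := by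
  have hp1 := hp.out.one_lt
  have : NeZero p := ⟨hp.out.ne_zero⟩
  have : NeZero (p : PadicAlgCl p) := ⟨by exact_mod_cast hp.out.ne_zero⟩
  obtain ⟨ζ, hζ⟩ := HasEnoughRootsOfUnity.exists_primitiveRoot (PadicAlgCl p) p
  have hn : ‖ζ‖ = 1 := by
    have h2 : ‖ζ‖ ^ p = 1 := by rw [← norm_pow, hζ.pow_eq_one, norm_one]
    exact (pow_eq_one_iff_of_nonneg (norm_nonneg _) hp.out.ne_zero).mp h2
  have hle : ∀ (η : PadicAlgCl p), ‖η‖ = 1 → ∀ j : ℕ, ‖1 - η ^ j‖ ≤ ‖1 - η‖ := by
    intro η hη j
    have h1 : 1 - η ^ j = (∑ i ∈ range j, η ^ i) * (1 - η) := by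
      have := mul_neg_geom_sum η j
      rw [mul_comm] at this
      exact this.symm
    rw [h1, norm_mul]
    apply mul_le_of_le_one_left (norm_nonneg _)
    apply gn_sum_le _ _ zero_le_one
    intro i _
    rw [norm_pow, hη, one_pow]
  obtain ⟨q, hq⟩ : ∃ q, p = q + 1 := ⟨p - 1, by omega⟩
  have hprod : ∏ k ∈ range (p - 1), (1 - ζ ^ (k + 1)) = (p : PadicAlgCl p) := by
    have hζ' : IsPrimitiveRoot ζ ((p - 1) + 1) := by
      rw [Nat.sub_add_cancel hp1.le]
      exact hζ
    have h := hζ'.prod_one_sub_pow_eq_order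
    rw [h]
    have h2 : (((p - 1 : ℕ) : PadicAlgCl p) + 1) = ((p - 1 + 1 : ℕ) : PadicAlgCl p) := by
      push_cast
      ring
    rw [h2, Nat.sub_add_cancel hp1.le]
  have hub : ‖(p : PadicAlgCl p)‖ ≤ ‖1 - ζ‖ ^ (p - 1) := by
    rw [← hprod, norm_prod]
    calc ∏ k ∈ range (p - 1), ‖1 - ζ ^ (k + 1)‖ ≤ ∏ k ∈ range (p - 1), ‖1 - ζ‖ :=
          Finset.prod_le_prod (fun _ _ => norm_nonneg _) (fun k _ => hle ζ hn (k + 1))
      _ = ‖1 - ζ‖ ^ (p - 1) := by rw [Finset.prod_const, Finset.card_range]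
  have hle1 : ‖1 - ζ‖ ≤ 1 := by
    refine (gn_sub_le _ _).trans ?_
    rw [hn, norm_one, max_self]
  refine ⟨ζ, hζ, hn, ?_, ?_, hub⟩
  · rw [norm_pos_iff, sub_ne_zero]
    exact (hζ.ne_one hp1).symm
  · by_contra hge
    have heq : ‖1 - ζ‖ = 1 := le_antisymm hle1 (not_lt.mp hge)
    have hall : ∀ k ∈ range (p - 1), ‖1 - ζ ^ (k + 1)‖ = 1 := by
      intro k hk
      rw [Finset.mem_range] at hk
      have hcop : Nat.Coprime (k + 1) p :=
        (Nat.coprime_of_lt_prime (by omega) (by omega) hp.out).symm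
      have h1 : ∃ j : ℕ, (ζ ^ (k + 1)) ^ j = ζ := by
        have hprim := hζ.pow_of_coprime (k + 1) hcop
        obtain ⟨j, _, hj⟩ := hprim.eq_pow_of_pow_eq_one hζ.pow_eq_one
        exact ⟨j, hj⟩
      obtain ⟨j, hj⟩ := h1
      apply le_antisymm
      · exact (hle ζ hn _).trans hle1
      · have hn' : ‖ζ ^ (k + 1)‖ = 1 := by rw [norm_pow, hn, one_pow]
        have := hle (ζ ^ (k + 1)) hn' j
        rw [hj, heq] at this
        exact this
    have h2 : ‖(p : PadicAlgCl p)‖ = 1 := by
      rw [← hprod, norm_prod, Finset.prod_congr rfl hall, Finset.prod_const_one]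
    exact absurd h2 te_norm_p_lt.ne

/-- The additive character attached to the primitive `p`-th root of unity. -/
theorem te_addChar {r : ℕ} (F : Type) [Field F] [Fintype F] (hcard : Fintype.card F = p ^ r)
    {ζ : PadicAlgCl p} (hζ : IsPrimitiveRoot ζ p) :
    ∃ (ψ : AddChar F (PadicAlgCl p)) (N : F → ℕ), ψ.IsPrimitive ∧ ψ ≠ 1 ∧
      (∀ x, (N x : F) = ∑ j ∈ range r, x ^ p ^ j) ∧ ∀ x, ψ x = ζ ^ N x := by
  classical
  have hr : r ≠ 0 := by
    rintro rfl
    rw [pow_zero] at hcard
    have := Fintype.one_lt_card (α := F)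
    omega
  have : NeZero p := ⟨hp.out.ne_zero⟩
  have : CharP F p := by
    have h1 : ringChar F ∣ p := by
      have h2 : ((p : ℕ) : F) = 0 := by
        have h3 : ((Fintype.card F : ℕ) : F) = 0 := FiniteField.cast_card_eq_zero F
        rw [hcard] at h3
        push_cast at h3
        exact pow_eq_zero_iff hr |>.mp h3
      exact ringChar.dvd h2
    rcases (Nat.dvd_prime hp.out).mp h1 with h1 | h1
    · exfalso
      have := ringChar.charP F
      rw [h1] at this
      have h3 : ((1 : ℕ) : F) = 0 := CharP.cast_eq_zero _ _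
      rw [Nat.cast_one] at h3
      exact one_ne_zero h3
    · have h4 := ringChar.charP F
      rwa [h1] at h4
  let _ : Algebra (ZMod p) F := ZMod.algebra F p
  let ψ0 : AddChar (ZMod p) (PadicAlgCl p) := AddChar.zmodChar p hζ.pow_eq_one
  let tr : F →+ ZMod p := (Algebra.trace (ZMod p) F).toAddMonoidHom
  let ψ : AddChar F (PadicAlgCl p) := ψ0.compAddMonoidHom tr
  have hψ : ∀ x, ψ x = ζ ^ (Algebra.trace (ZMod p) F x).val := by
    intro x
    change ψ0 (Algebra.trace (ZMod p) F x) = _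
    exact AddChar.zmodChar_apply hζ.pow_eq_one _
  have hfin : Module.finrank (ZMod p) F = r := by
    have h1 := Module.card_eq_pow_finrank (K := ZMod p) (V := F)
    rw [hcard, ZMod.card] at h1
    exact (Nat.pow_right_injective hp.out.two_le h1).symm
  have hne : ψ ≠ 1 := by
    rw [AddChar.ne_one_iff]
    obtain ⟨x, hx⟩ := Algebra.trace_surjective (ZMod p) F 1
    refine ⟨x, ?_⟩
    rw [hψ, hx, ZMod.val_one, pow_one]
    exact hζ.ne_one hp.out.one_lt
  refine ⟨ψ, fun x => (Algebra.trace (ZMod p) F x).val, AddChar.IsPrimitive.of_ne_one hne, hne,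
    ?_, hψ⟩
  intro x
  have h1 := FiniteField.algebraMap_trace_eq_sum_pow (ZMod p) F x
  rw [hfin, Nat.card_eq_fintype_card, ZMod.card] at h1
  rw [← h1]
  have h2 : (((Algebra.trace (ZMod p) F x).val : ZMod p)) = Algebra.trace (ZMod p) F x :=
    ZMod.natCast_zmod_val _
  calc (((Algebra.trace (ZMod p) F x).val : ℕ) : F)
      = algebraMap (ZMod p) F ((Algebra.trace (ZMod p) F x).val : ZMod p) := by
        rw [map_natCast]
    _ = _ := by rw [h2]

end Pool.Agent.TT
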