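import Pool.Agent.Lib_helper61.TT.DefsL
import Pool.Agent.Lib_helper61.TT.TE

/-!
# The local bound for the character sums
-/

set_option autoImplicit false

namespace Pool.Agent.TT

open Finset NumberField

theorem lo_unique {p e : ℕ} [Fact p.Prime] (he : Nat.Coprime e p) {x y : PadicAlgCl p}
    (hx : x ^ e = 1) (hy : y ^ e = 1) (h : ‖x - y‖ < 1) : x = y := by
  have he0 : e ≠ 0 := by
    rintro rfl
    rw [Nat.coprime_zero_left] at he
    exact (Fact.out : p.Prime).one_lt.ne' he
  have hx0 : x ≠ 0 := by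
    rintro rfl
    rw [zero_pow he0] at hx
    exact zero_ne_one hx
  have hn : ‖x‖ = 1 := by
    have h2 : ‖x‖ ^ e = 1 := by rw [← norm_pow, hx, norm_one]
    exact (pow_eq_one_iff_of_nonneg (norm_nonneg _) he0).mp h2
  have h1 : (y / x) ^ e = 1 := by rw [div_pow, hx, hy, div_one]
  have h2 : ‖1 - y / x‖ < 1 := by
    have h3 : 1 - y / x = (x - y) / x := by field_simp
    rw [h3, norm_div, hn, div_one]
    exact h
  have h4 := te_root_eq_one he h1 h2
  field_simp at h4
  exact h4.symm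

/-- The local bound. -/
theorem lo_bound {K : Type} [Field K] {p : ℕ} [hp : Fact p.Prime] {m : ℕ} (hm : 2 ≤ m)
    {ζ : 𝓞 K} (hζ : IsPrimitiveRoot ζ m) {M n : ℕ} (L : Fin n → Fin M → 𝓞 K) (a : Fin n → ℕ)
    (ha : ∀ i, ¬ m ∣ a i) {u v : ℕ} (hu : u.Coprime m) (huv : u * v ≡ 1 [MOD m])
    (hmp : m ∣ p - 1) (τ : 𝓞 K →+* PadicAlgCl p) (hτ : Function.Injective τ)
    {r : ℕ} {F : Type} [Field F] [Fintype F]
    (hcard : Fintype.card F = p ^ r) (φ : 𝓞 K →+* F) {n0 : ℕ} (hn0 : φ ζ = n0)
    (hn1 : ‖τ ζ ^ v - n0‖ < 1) {ξ : PadicAlgCl p} (hξ : IsPrimitiveRoot ξ p) (hξ1 : ‖ξ‖ = 1)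
    (hξ2 : ‖1 - ξ‖ < 1) :
    ‖τ (charSum m ζ L a φ)‖ * ‖1 - ξ‖ ^ (r * ∑ i, (u * a i % m) * ((p - 1) / m)) ≤
      ‖(p : PadicAlgCl p)‖ ^ (r * M) := by
  classical
  have hp1 := hp.out.one_lt
  have hr : r ≠ 0 := by
    rintro rfl
    rw [pow_zero] at hcard
    have := Fintype.one_lt_card (α := F)
    omega
  obtain ⟨ω, hω⟩ := te_exists F hcard
  obtain ⟨ψ, N, hprim, hψ1, hN, hψ⟩ := te_addChar F hcard hξ
  have hpr : 1 < p ^ r := Nat.one_lt_pow hr hp1
  set e : ℕ := p ^ r - 1 with he
  have he0 : 0 < e := by omega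
  have hcop : Nat.Coprime e p := by
    have h1 : Nat.Coprime e (p ^ r) := by
      have h2 : p ^ r = e + 1 := by omega
      rw [h2]
      exact (Nat.coprime_self_add_right).mpr (Nat.coprime_one_right e)
    exact Nat.Coprime.coprime_dvd_right (dvd_pow_self p hr) h1
  have hpe : p - 1 ∣ e := Nat.sub_one_dvd_pow_sub_one p r
  have hme : m ∣ e := hmp.trans hpe
  set q' : ℕ := e / m with hq'
  have hq'm : q' * m = e := Nat.div_mul_cancel hme
  have hq'0 : 0 < q' := Nat.pos_of_ne_zero (by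
    rintro h
    rw [h, zero_mul] at hq'm
    omega)
  have hu0 : 0 < u := by
    rcases Nat.eq_zero_or_pos u with h | h
    · rw [h, Nat.coprime_zero_left] at hu
      omega
    · exact h
  have hunit : ∀ y : F, y ≠ 0 → ω y ^ e = 1 := by
    intro y hy
    rw [← map_pow]
    have h2 : y ^ e = 1 := by
      have := FiniteField.pow_card_sub_one_eq_one y hy
      rw [hcard] at this
      exact this
    rw [h2, map_one]
  -- the value at the root of unity
  have hτm : τ ζ ^ m = 1 := by rw [← map_pow, hζ.pow_eq_one, map_one]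
  have hφm : φ ζ ^ m = 1 := by rw [← map_pow, hζ.pow_eq_one, map_one]
  have hφ0 : φ ζ ≠ 0 := by
    intro h
    rw [h, zero_pow (by omega)] at hφm
    exact zero_ne_one hφm
  have hωζ : ω (φ ζ) = τ ζ ^ v := by
    apply lo_unique hcop
    · exact hunit _ hφ0
    · rw [← pow_mul, mul_comm, ← hq'm, mul_comm q' m, mul_assoc, pow_mul, hτm, one_pow]
    · have h1 := gn_natCast hω n0
      rw [← hn0] at h1
      have h2 : ω (φ ζ) - τ ζ ^ v = (ω (φ ζ) - n0) - (τ ζ ^ v - n0) := by ring
      rw [h2]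
      exact lt_of_le_of_lt (gn_sub_le _ _) (max_lt h1 hn1)
  have hτprim : IsPrimitiveRoot (τ ζ) m := hζ.map_of_injective hτ
  have hvcop : v.Coprime m := by
    have h1 : (u * v).Coprime m := by
      rw [Nat.Coprime, Nat.ModEq.gcd_eq huv, Nat.gcd_one_left]
    exact Nat.Coprime.coprime_mul_left h1
  have hφprim : IsPrimitiveRoot (φ ζ) m := by
    refine ⟨hφm, fun l hl => ?_⟩
    have h1 : (τ ζ ^ v) ^ l = 1 := by rw [← hωζ, ← map_pow, hl, map_one]
    rw [← pow_mul] at h1
    have h2 := hτprim.dvd_of_pow_eq_one _ h1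
    exact (Nat.Coprime.dvd_of_dvd_mul_left hvcop.symm h2)
  have : NeZero m := ⟨by omega⟩
  -- the symbol
  have hsym : ∀ y : F, τ (residueSymbol m ζ φ y) = ω y ^ (u * q') := by
    intro y
    unfold residueSymbol
    rw [hcard, ← he, ← hq', map_sum]
    by_cases hy : y = 0
    · subst hy
      rw [MulChar.map_zero, zero_pow (Nat.mul_pos hu0 hq'0).ne']
      apply Finset.sum_eq_zero
      intro j _
      rw [if_neg, map_zero]
      rw [zero_pow hq'0.ne']
      exact (pow_ne_zero _ hφ0).symm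
    · have h1 : (y ^ q') ^ m = 1 := by
        rw [← pow_mul, hq'm]
        have := FiniteField.pow_card_sub_one_eq_one y hy
        rw [hcard] at this
        exact this
      obtain ⟨j0, hj0, hj0'⟩ := hφprim.eq_pow_of_pow_eq_one h1
      rw [Finset.sum_eq_single (⟨j0, hj0⟩ : Fin m)]
      · rw [if_pos hj0'.symm, map_pow]
        have h2 : ω y ^ (u * q') = (ω (y ^ q')) ^ u := by
          rw [map_pow, ← pow_mul, mul_comm]
        rw [h2, ← hj0', map_pow, hωζ, ← pow_mul, ← pow_mul]
        change τ ζ ^ j0 = τ ζ ^ (v * (j0 * u))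
        have h3 : v * (j0 * u) ≡ j0 [MOD m] := by
          have h4 : v * (j0 * u) = u * v * j0 := by ring
          rw [h4]
          simpa using huv.mul_right j0
        exact (pow_eq_pow_of_modEq h3 hτm).symm
      · intro j _ hj
        rw [if_neg, map_zero]
        intro h
        apply hj
        apply Fin.ext
        apply hφprim.pow_inj j.2 hj0
        rw [← h, hj0']
      · intro h
        exact absurd (Finset.mem_univ _) h
  -- exponents
  set d : Fin n → ℕ := fun i => (u * a i % m) * ((p - 1) / m) with hd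
  have hp1m : (p - 1) / m * m = p - 1 := Nat.div_mul_cancel hmp
  have hpm0 : 0 < (p - 1) / m := Nat.pos_of_ne_zero (by
    intro h
    rw [h, zero_mul] at hp1m
    omega)
  have hb0 : ∀ i, 0 < u * a i % m := by
    intro i
    apply Nat.pos_of_ne_zero
    intro h
    exact ha i ((Nat.Coprime.dvd_of_dvd_mul_left hu.symm (Nat.dvd_of_mod_eq_zero h)))
  have hgeom : (p - 1) * ∑ j ∈ range r, p ^ j = e := by
    have := Nat.geomSum_eq hp1 r
    rw [this]
    exact Nat.mul_div_cancel' hpe
  have hc : ∀ i, (u * a i % m) * q' = d i * ∑ j ∈ range r, p ^ j := by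
    intro i
    have h1 : (p - 1) / m * ∑ j ∈ range r, p ^ j = q' := by
      apply Nat.eq_of_mul_eq_mul_right (by omega : 0 < m)
      rw [hq'm, ← hgeom, ← hp1m]
      rw [hp1m]
      calc (p - 1) / m * (∑ j ∈ range r, p ^ j) * m = ((p - 1) / m * m) * ∑ j ∈ range r, p ^ j := by
            ring
        _ = _ := by rw [hp1m]
    rw [hd, ← h1]
    ring
  have hsum : τ (charSum m ζ L a φ) =
      ∑ x : Fin M → F, ∏ i, (ω ^ ((u * a i % m) * q')) (∑ k, φ (L i k) * x k) := by
    unfold charSum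
    rw [map_sum]
    apply Finset.sum_congr rfl
    intro x _
    rw [hsym, map_prod, ← Finset.prod_pow]
    apply Finset.prod_congr rfl
    intro i _
    rw [MulChar.pow_apply' ω (Nat.mul_pos (hb0 i) hq'0).ne', map_pow, ← pow_mul]
    have hai : a i ≠ 0 := by
      intro h
      exact ha i (h ▸ dvd_zero m)
    by_cases hz : (∑ k, φ (L i k) * x k) = 0
    · rw [hz, MulChar.map_zero, zero_pow, zero_pow (Nat.mul_pos (hb0 i) hq'0).ne']
      exact mul_ne_zero hai (Nat.mul_pos hu0 hq'0).ne'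
    · have h1 : a i * (u * q') = (u * a i % m) * q' + e * (u * a i / m) := by
        have h2 := Nat.mod_add_div (u * a i) m
        calc a i * (u * q') = (u * a i) * q' := by ring
          _ = (u * a i % m + m * (u * a i / m)) * q' := by rw [h2]
          _ = _ := by rw [← hq'm]; ring
      rw [h1, pow_add, pow_mul _ e, hunit _ hz, one_pow, mul_one]
  rw [hsum]
  refine gn_bound hp.out.two_le hcard te_norm_p_lt hω hξ1 hξ2 hprim hψ1 N hN hψ
    (fun i k => φ (L i k)) (fun i => (u * a i % m) * q') d ?_ ?_ hc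
  · intro i
    exact Nat.mul_pos (hb0 i) hpm0
  · intro i
    have h1 : u * a i % m < m := Nat.mod_lt _ (by omega)
    calc d i = (u * a i % m) * ((p - 1) / m) := rfl
      _ < m * ((p - 1) / m) := Nat.mul_lt_mul_of_pos_right h1 hpm0
      _ = p - 1 := by rw [mul_comm]; exact hp1m

end Pool.Agent.TT
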