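import Mathlib

/-!
# Power residue symbols and the cyclotomic character (MP_97f789_ag): definitions
-/

set_option autoImplicit false

namespace Pool.Agent.TT

open NumberField

/-- An algebraic closure of `ℚ`. -/
abbrev Qbar : Type := AlgebraicClosure ℚ

open Classical in
/-- The `m`-th power residue symbol of an element `y` of the finite field `F`, with respect to the
`m`-th root of unity `ζ` of `K` and the reduction map `φ : 𝓞 K → F`: it is `ζ ^ j` if
`y ^ ((|F| - 1) / m) = φ(ζ) ^ j`, `0 ≤ j < m`, and it is `0` if `y = 0`. -/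
noncomputable def residueSymbol {K : Type} [Field K] {F : Type} [Field F] [Fintype F] (m : ℕ)
    (ζ : 𝓞 K) (φ : 𝓞 K →+* F) (y : F) : 𝓞 K :=
  ∑ j : Fin m, if y ^ ((Fintype.card F - 1) / m) = φ ζ ^ (j : ℕ) then ζ ^ (j : ℕ) else 0

/-- The `ℓ`-adic cyclotomic character of `Gal(Qbar/K)`. -/
noncomputable def cyc {K : Type} [Field K] [Algebra K Qbar] (ℓ : ℕ) [Fact ℓ.Prime]
    (σ : Qbar ≃ₐ[K] Qbar) : PadicAlgCl ℓ :=
  algebraMap ℚ_[ℓ] (PadicAlgCl ℓ) ((cyclotomicCharacter Qbar ℓ (σ : Qbar ≃+* Qbar) : ℤ_[ℓ]) : ℚ_[ℓ])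

end Pool.Agent.TT
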