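import Pool.Agent.Lib_helper61.TT.Defs

/-!
# Galois representations with the traces of character sums of products of linear forms:
definitions
-/

set_option autoImplicit false

namespace Pool.Agent.TT

open NumberField

/-- The sum over all `x` in `F ^ M` of the symbols of `∏ L_i(x) ^ (a_i)`, where
`L_i(x) = ∑ L_ik x_k` are linear forms with coefficients in `𝓞 K`. -/
noncomputable def charSum {K : Type} [Field K] {F : Type} [Field F] [Fintype F] {M n : ℕ} (m : ℕ)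
    (ζ : 𝓞 K) (L : Fin n → Fin M → 𝓞 K) (a : Fin n → ℕ) (φ : 𝓞 K →+* F) : 𝓞 K :=
  ∑ x : Fin M → F, residueSymbol m ζ φ (∏ i, (∑ k, φ (L i k) * x k) ^ a i)

/-- The representation `ρ` of the absolute Galois group `Gal(Qbar/K)` has the traces given by the
character sums: for all prime ideals `𝔓` of the ring of algebraic integers above almost all primes
`p`, all finite fields `F` that contain the residue field of `K` at `𝔓` and all elements `σ` of
the Galois group that induce `x ↦ x ^ |F|` modulo `𝔓`, the trace of `σ⁻¹` (a power of a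
geometric Frobenius element) is the character sum divided by `(|F| - 1) ^ k`. -/
def HasTraces {K : Type} [Field K] [NumberField K] [Algebra K Qbar] {ℓ : ℕ} [Fact ℓ.Prime]
    {V : Type} [AddCommGroup V] [Module (PadicAlgCl ℓ) V] {M n : ℕ} (k : ℕ)
    (ρ : Representation (PadicAlgCl ℓ) (Qbar ≃ₐ[K] Qbar) V) (ι : K →+* PadicAlgCl ℓ) (m : ℕ)
    (ζ : 𝓞 K) (L : Fin n → Fin M → 𝓞 K) (a : Fin n → ℕ) : Prop :=
  ∃ B : Finset ℕ, ∀ p : ℕ, p.Prime → p ∉ B → ∀ 𝔓 : Ideal (𝓞 Qbar), 𝔓.IsPrime →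
    (p : 𝓞 Qbar) ∈ 𝔓 → ∀ (F : Type) [Field F] [Fintype F] (φ : 𝓞 K →+* F),
      (∀ x : 𝓞 K, φ x = 0 ↔ algebraMap (𝓞 K) (𝓞 Qbar) x ∈ 𝔓) →
      ∀ σ : Qbar ≃ₐ[K] Qbar, (∀ x y : 𝓞 Qbar, (y : Qbar) = σ x → y - x ^ Fintype.card F ∈ 𝔓) →
        ((Fintype.card F : PadicAlgCl ℓ) - 1) ^ k * LinearMap.trace (PadicAlgCl ℓ) V (ρ σ⁻¹) =
          ι (charSum m ζ L a φ)

end Pool.Agent.TT
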