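import Pool.Agent.Lib_helper61.TT.GS

/-!
# Norms of Gauss sums of powers of the Teichmueller character
-/

set_option autoImplicit false

namespace Pool.Agent.TT

open Finset

section norm

variable {F Ω : Type} [Field F] [Fintype F] [NormedField Ω] [IsUltrametricDist Ω]

theorem gn_sum_le {ι : Type} (s : Finset ι) (f : ι → Ω) {C : ℝ} (hC : 0 ≤ C)
    (h : ∀ i ∈ s, ‖f i‖ ≤ C) : ‖∑ i ∈ s, f i‖ ≤ C :=
  IsUltrametricDist.norm_sum_le_of_forall_le_of_nonneg hC h

theorem gn_sum_lt {ι : Type} (s : Finset ι) (f : ι → Ω) {C : ℝ} (hC : 0 < C)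
    (h : ∀ i ∈ s, ‖f i‖ < C) : ‖∑ i ∈ s, f i‖ < C := by
  classical
  induction s using Finset.induction_on with
  | empty => simpa using hC
  | insert a s ha ih =>
    rw [Finset.sum_insert ha]
    refine lt_of_le_of_lt (IsUltrametricDist.norm_add_le_max _ _) (max_lt ?_ ?_)
    · exact h a (Finset.mem_insert_self a s)
    · exact ih (fun i hi => h i (Finset.mem_insert_of_mem hi))

theorem gn_sub_le (x y : Ω) : ‖x - y‖ ≤ max ‖x‖ ‖y‖ := by
  rw [sub_eq_add_neg, ← norm_neg y]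
  exact IsUltrametricDist.norm_add_le_max _ _

theorem gn_unit_norm (χ : MulChar F Ω) {y : F} (hy : y ≠ 0) : ‖χ y‖ = 1 := by
  classical
  have h1 : χ y ^ (Fintype.card F - 1) = 1 := by
    rw [← map_pow, FiniteField.pow_card_sub_one_eq_one y hy, map_one]
  have h2 : ‖χ y‖ ^ (Fintype.card F - 1) = 1 := by
    rw [← norm_pow, h1, norm_one]
  have h3 : Fintype.card F - 1 ≠ 0 := by
    have := Fintype.one_lt_card (α := F)
    omega
  exact (pow_eq_one_iff_of_nonneg (norm_nonneg _) h3).mp h2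

theorem gn_le_one (χ : MulChar F Ω) (y : F) : ‖χ y‖ ≤ 1 := by
  by_cases hy : y = 0
  · subst hy
    rw [MulChar.map_zero]
    simp
  · exact (gn_unit_norm χ hy).le

theorem gn_jacobi (χ φ : MulChar F Ω) : ‖jacobiSum χ φ‖ ≤ 1 := by
  unfold jacobiSum
  apply gn_sum_le _ _ zero_le_one
  intro y _
  rw [norm_mul]
  exact mul_le_one₀ (gn_le_one _ _) (norm_nonneg _) (gn_le_one _ _)

theorem gn_gauss_mul {χ φ : MulChar F Ω} (h : χ * φ ≠ 1) (ψ : AddChar F Ω) :
    ‖gaussSum χ ψ‖ * ‖gaussSum φ ψ‖ ≤ ‖gaussSum (χ * φ) ψ‖ := by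
  have h1 := jacobiSum_mul_nontrivial h ψ
  rw [← norm_mul, ← h1, norm_mul]
  exact mul_le_of_le_one_right (norm_nonneg _) (gn_jacobi _ _)

/-- `ω` is a Teichmueller character: additive modulo the maximal ideal. -/
def IsTeich (ω : MulChar F Ω) : Prop := ∀ x y : F, ‖ω (x + y) - ω x - ω y‖ < 1

variable {ω : MulChar F Ω}

theorem gn_inj (hω : IsTeich ω) {x y : F} (h : ω x = ω y) : x = y := by
  by_contra hne
  have h1 := hω (x - y) y
  rw [sub_add_cancel, h, sub_sub, add_comm, ← sub_sub, sub_self, zero_sub, norm_neg] at h1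
  rw [gn_unit_norm ω (sub_ne_zero.mpr hne)] at h1
  exact lt_irrefl _ h1

theorem gn_natCast (hω : IsTeich ω) (n : ℕ) : ‖ω (n : F) - (n : Ω)‖ < 1 := by
  induction n with
  | zero => simp [MulChar.map_zero]
  | succ n ih =>
    have h1 := hω (n : F) 1
    have h2 : ω ((n + 1 : ℕ) : F) - ((n + 1 : ℕ) : Ω) =
        (ω ((n : F) + 1) - ω (n : F) - ω 1) + (ω (n : F) - (n : Ω)) := by
      push_cast
      rw [map_one]
      ring
    rw [h2]
    exact lt_of_le_of_lt (IsUltrametricDist.norm_add_le_max _ _) (max_lt h1 ih)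

theorem gn_sumCast (hω : IsTeich ω) {ι : Type} (s : Finset ι) (f : ι → F) :
    ‖ω (∑ i ∈ s, f i) - ∑ i ∈ s, ω (f i)‖ < 1 := by
  classical
  induction s using Finset.induction_on with
  | empty => simp [MulChar.map_zero]
  | insert a s ha ih =>
    rw [Finset.sum_insert ha, Finset.sum_insert ha]
    have h1 := hω (f a) (∑ i ∈ s, f i)
    have h2 : ω (f a + ∑ i ∈ s, f i) - (ω (f a) + ∑ i ∈ s, ω (f i)) =
        (ω (f a + ∑ i ∈ s, f i) - ω (f a) - ω (∑ i ∈ s, f i)) +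
          (ω (∑ i ∈ s, f i) - ∑ i ∈ s, ω (f i)) := by
      ring
    rw [h2]
    exact lt_of_le_of_lt (IsUltrametricDist.norm_add_le_max _ _) (max_lt h1 ih)

/-- A power of the Teichmueller character is trivial only if the exponent is divisible by
`|F| - 1`. -/
theorem gn_pow_eq_one (hω : IsTeich ω) {c : ℕ} (h : (ω⁻¹) ^ c = 1) : Fintype.card F - 1 ∣ c := by
  classical
  rw [← FiniteField.forall_pow_eq_one_iff F c]
  intro x
  have h1 : (ω⁻¹ ^ c) (x : F) = 1 := by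
    rw [h]; exact MulChar.one_apply_coe x
  rw [MulChar.pow_apply_coe, MulChar.inv_apply_eq_inv', inv_pow, inv_eq_one] at h1
  rw [← map_pow] at h1
  have h2 : ω ((x : F) ^ c) = ω 1 := by rw [h1, map_one]
  have h3 := gn_inj hω h2
  ext
  simpa using h3

/-- `ζ^n = 1 - n (1 - ζ)` modulo the square of `1 - ζ`. -/
theorem gn_zeta_pow {ζ : Ω} (hζ : ‖ζ‖ = 1) (n : ℕ) :
    ‖ζ ^ n - 1 + n * (1 - ζ)‖ ≤ ‖1 - ζ‖ ^ 2 := by
  induction n with
  | zero => simp
  | succ n ih =>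
    have h1 : ζ ^ (n + 1) - 1 + ((n + 1 : ℕ) : Ω) * (1 - ζ) =
        ζ * (ζ ^ n - 1 + n * (1 - ζ)) + n * (1 - ζ) ^ 2 := by
      push_cast
      ring
    rw [h1]
    refine le_trans (IsUltrametricDist.norm_add_le_max _ _) (max_le ?_ ?_)
    · rw [norm_mul, hζ, one_mul]
      exact ih
    · rw [norm_mul, norm_pow]
      exact mul_le_of_le_one_left (by positivity) (IsUltrametricDist.norm_natCast_le_one Ω n)

/-- The Gauss sum of `ω^{-p^i}` has norm at least `‖1 - ζ‖`. -/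
theorem gn_unit {p r : ℕ} (hp : 2 ≤ p) (hcard : Fintype.card F = p ^ r) (hnp : ‖(p : Ω)‖ < 1)
    (hω : IsTeich ω) {ζ : Ω} (hζ1 : ‖ζ‖ = 1) (hζ : ‖1 - ζ‖ < 1) {ψ : AddChar F Ω} (N : F → ℕ)
    (hN : ∀ x, (N x : F) = ∑ j ∈ range r, x ^ p ^ j) (hψ : ∀ x, ψ x = ζ ^ N x) {i : ℕ}
    (hi : i < r) (hne : (ω⁻¹) ^ p ^ i ≠ 1) :
    ‖1 - ζ‖ ≤ ‖gaussSum ((ω⁻¹) ^ p ^ i) ψ‖ := by
  classical
  set χ : MulChar F Ω := (ω⁻¹) ^ p ^ i with hχ
  have hp1 : 1 ≤ p := by omega
  -- orthogonality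
  have horth : ∀ j ∈ range r, ∑ x : F, χ x * ω x ^ p ^ j =
      if j = i then ((p : Ω) ^ r - 1) else 0 := by
    intro j hj
    rw [Finset.mem_range] at hj
    have h1 : ∀ x : F, χ x * ω x ^ p ^ j = (χ * ω ^ p ^ j) x := by
      intro x
      rw [MulChar.mul_apply, MulChar.pow_apply' ω (pow_ne_zero _ (by omega))]
    simp_rw [h1]
    split_ifs with hij
    · subst hij
      have h2 : χ * ω ^ p ^ j = 1 := by
        rw [hχ, ← mul_pow, inv_mul_cancel, one_pow]
      rw [h2, MulChar.sum_one_eq_card_units, Fintype.card_units, hcard,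
        Nat.cast_sub (Nat.one_le_pow _ _ (by omega))]
      push_cast
      ring
    · apply MulChar.sum_eq_zero_of_ne_one
      intro h2
      rcases lt_or_gt_of_ne hij with h3 | h3
      · have h4 : p ^ j < p ^ i := Nat.pow_lt_pow_right (by omega) h3
        have h5 : (ω⁻¹) ^ (p ^ i - p ^ j) = 1 := by
          have h6 : (ω⁻¹) ^ (p ^ i - p ^ j) * (ω⁻¹) ^ p ^ j = χ := by
            rw [← pow_add, Nat.sub_add_cancel h4.le]
          have h7 : χ * ω ^ p ^ j = (ω⁻¹) ^ (p ^ i - p ^ j) := by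
            rw [← h6, mul_assoc, ← mul_pow, inv_mul_cancel, one_pow, mul_one]
          rw [← h7, h2]
        have h8 := Nat.le_of_dvd (by omega) (gn_pow_eq_one hω h5)
        have h9 : p ^ i ≤ p ^ r := Nat.pow_le_pow_right (by omega) hi.le
        have h10 : 1 ≤ p ^ j := Nat.one_le_pow _ _ (by omega)
        have h11 : p ^ i < p ^ r := Nat.pow_lt_pow_right (by omega) hi
        rw [hcard] at h8
        omega
      · have h4 : p ^ i < p ^ j := Nat.pow_lt_pow_right (by omega) h3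
        have h5 : (ω⁻¹) ^ (p ^ j - p ^ i) = 1 := by
          have h6 : (ω⁻¹) ^ (p ^ j - p ^ i) * (ω⁻¹) ^ p ^ i = (ω⁻¹) ^ p ^ j := by
            rw [← pow_add, Nat.sub_add_cancel h4.le]
          have h7 : (ω⁻¹) ^ (p ^ j - p ^ i) * (χ * ω ^ p ^ j) = 1 := by
            rw [← mul_assoc, h6, ← mul_pow, inv_mul_cancel, one_pow]
          rw [h2, mul_one] at h7
          exact h7
        have h8 := Nat.le_of_dvd (by omega) (gn_pow_eq_one hω h5)
        have h10 : 1 ≤ p ^ i := Nat.one_le_pow _ _ (by omega)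
        have h11 : p ^ j < p ^ r := Nat.pow_lt_pow_right (by omega) hj
        rw [hcard] at h8
        omega
  have hr : r ≠ 0 := by omega
  -- the main coefficient
  set U : Ω := ∑ x : F, χ x * (N x : Ω) with hU
  have hU1 : U = ((p : Ω) ^ r - 1) + ∑ x : F, χ x * ((N x : Ω) - ∑ j ∈ range r, ω x ^ p ^ j) := by
    have h1 : ∑ x : F, χ x * ∑ j ∈ range r, ω x ^ p ^ j = (p : Ω) ^ r - 1 := by
      simp_rw [Finset.mul_sum]
      rw [Finset.sum_comm, Finset.sum_congr rfl horth, Finset.sum_ite_eq' (range r) i]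
      rw [if_pos (Finset.mem_range.mpr hi)]
    rw [← h1, hU, ← Finset.sum_add_distrib]
    apply Finset.sum_congr rfl
    intro x _
    ring
  have hnr : ‖(p : Ω) ^ r‖ < 1 := by
    rw [norm_pow]
    exact pow_lt_one₀ (norm_nonneg _) hnp hr
  have hsmall : ‖∑ x : F, χ x * ((N x : Ω) - ∑ j ∈ range r, ω x ^ p ^ j)‖ < 1 := by
    apply gn_sum_lt _ _ one_pos
    intro x _
    rw [norm_mul]
    have h1 : ‖(N x : Ω) - ∑ j ∈ range r, ω x ^ p ^ j‖ < 1 := by
      have h2 := gn_natCast hω (N x)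
      have h3 := gn_sumCast hω (range r) (fun j => x ^ p ^ j)
      rw [← hN x] at h3
      simp_rw [map_pow] at h3
      have h4 : (N x : Ω) - ∑ j ∈ range r, ω x ^ p ^ j =
          (ω (N x : F) - ∑ j ∈ range r, ω x ^ p ^ j) - (ω (N x : F) - (N x : Ω)) := by ring
      rw [h4]
      exact lt_of_le_of_lt (gn_sub_le _ _) (max_lt h3 h2)
    calc ‖χ x‖ * ‖(N x : Ω) - ∑ j ∈ range r, ω x ^ p ^ j‖
        ≤ 1 * ‖(N x : Ω) - ∑ j ∈ range r, ω x ^ p ^ j‖ :=
          mul_le_mul_of_nonneg_right (gn_le_one _ _) (norm_nonneg _)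
      _ < 1 := by rw [one_mul]; exact h1
  have hU2 : ‖U‖ = 1 := by
    have h1 : U = -1 + ((p : Ω) ^ r +
        ∑ x : F, χ x * ((N x : Ω) - ∑ j ∈ range r, ω x ^ p ^ j)) := by
      rw [hU1]; ring
    have h2 : ‖(p : Ω) ^ r + ∑ x : F, χ x * ((N x : Ω) - ∑ j ∈ range r, ω x ^ p ^ j)‖ < 1 :=
      lt_of_le_of_lt (IsUltrametricDist.norm_add_le_max _ _) (max_lt hnr hsmall)
    have h3 : ‖(-1 : Ω)‖ = 1 := by simp
    rw [h1, IsUltrametricDist.norm_add_eq_max_of_norm_ne_norm (by rw [h3]; exact h2.ne'), h3,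
      max_eq_left h2.le]
  -- conclusion
  have hsumχ : ∑ x : F, χ x = 0 := MulChar.sum_eq_zero_of_ne_one hne
  have hg : gaussSum χ ψ = -((1 - ζ) * U) +
      ∑ x : F, χ x * (ζ ^ N x - 1 + (N x : Ω) * (1 - ζ)) := by
    have h1 : gaussSum χ ψ = ∑ x : F, χ x * ζ ^ N x := by
      unfold gaussSum
      simp_rw [hψ]
    have h2 : ∑ x : F, χ x * (ζ ^ N x - 1 + (N x : Ω) * (1 - ζ)) =
        ∑ x : F, χ x * ζ ^ N x - ∑ x : F, χ x + (1 - ζ) * U := by
      rw [hU, Finset.mul_sum, ← Finset.sum_sub_distrib, ← Finset.sum_add_distrib]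
      apply Finset.sum_congr rfl
      intro x _
      ring
    rw [h2, hsumχ, h1]
    ring
  by_cases h0 : ‖1 - ζ‖ = 0
  · rw [h0]; exact norm_nonneg _
  have hpos : 0 < ‖1 - ζ‖ := lt_of_le_of_ne (norm_nonneg _) (Ne.symm h0)
  have hrem : ‖∑ x : F, χ x * (ζ ^ N x - 1 + (N x : Ω) * (1 - ζ))‖ ≤ ‖1 - ζ‖ ^ 2 := by
    apply gn_sum_le _ _ (by positivity)
    intro x _
    rw [norm_mul]
    calc ‖χ x‖ * ‖ζ ^ N x - 1 + (N x : Ω) * (1 - ζ)‖
        ≤ 1 * ‖ζ ^ N x - 1 + (N x : Ω) * (1 - ζ)‖ :=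
          mul_le_mul_of_nonneg_right (gn_le_one _ _) (norm_nonneg _)
      _ ≤ ‖1 - ζ‖ ^ 2 := by rw [one_mul]; exact gn_zeta_pow hζ1 _
  have hlt : ‖1 - ζ‖ ^ 2 < ‖1 - ζ‖ := by nlinarith
  have hmain : ‖-((1 - ζ) * U)‖ = ‖1 - ζ‖ := by
    rw [norm_neg, norm_mul, hU2, mul_one]
  rw [hg, IsUltrametricDist.norm_add_eq_max_of_norm_ne_norm
    (by rw [hmain]; exact (lt_of_le_of_lt hrem hlt).ne'), hmain]
  exact le_max_left _ _

/-- Lower bound for the norm of a Gauss sum by the number of summands `p^i` in the exponent. -/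
theorem gn_low {p r : ℕ} (hp : 2 ≤ p) (hcard : Fintype.card F = p ^ r) (hnp : ‖(p : Ω)‖ < 1)
    (hω : IsTeich ω) {ζ : Ω} (hζ1 : ‖ζ‖ = 1) (hζ : ‖1 - ζ‖ < 1) {ψ : AddChar F Ω} (hψ1 : ψ ≠ 1)
    (N : F → ℕ) (hN : ∀ x, (N x : F) = ∑ j ∈ range r, x ^ p ^ j) (hψ : ∀ x, ψ x = ζ ^ N x)
    (l : List ℕ) (hl : ∀ i ∈ l, i < r) (hc : (l.map (fun i => p ^ i)).sum < Fintype.card F - 1) :
    ‖1 - ζ‖ ^ l.length ≤ ‖gaussSum ((ω⁻¹) ^ (l.map (fun i => p ^ i)).sum) ψ‖ := by
  induction l with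
  | nil =>
    simp only [List.length_nil, pow_zero, List.map_nil, List.sum_nil]
    rw [gaussSum_one_left hψ1]
    simp
  | cons i l ih =>
    rw [List.map_cons, List.sum_cons] at hc ⊢
    have hi : i < r := hl i (List.mem_cons_self)
    have hl' : ∀ j ∈ l, j < r := fun j hj => hl j (List.mem_cons_of_mem _ hj)
    have h1 := ih hl' (by omega)
    have hpi : 1 ≤ p ^ i := Nat.one_le_pow _ _ (by omega)
    have hne : (ω⁻¹) ^ p ^ i * (ω⁻¹) ^ (l.map (fun i => p ^ i)).sum ≠ 1 := by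
      rw [← pow_add]
      intro h
      have := Nat.le_of_dvd (by omega) (gn_pow_eq_one hω h)
      omega
    have hne1 : (ω⁻¹) ^ p ^ i ≠ 1 := by
      intro h
      have := Nat.le_of_dvd (by omega) (gn_pow_eq_one hω h)
      omega
    have h2 := gn_gauss_mul hne ψ
    have h3 := gn_unit hp hcard hnp hω hζ1 hζ N hN hψ hi hne1
    rw [pow_add]
    refine le_trans ?_ h2
    rw [List.length_cons, pow_succ']
    exact mul_le_mul h3 h1 (by positivity) (norm_nonneg _)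

/-- The main bound: sums of characters of products of linear forms. -/
theorem gn_bound {p r : ℕ} (hp : 2 ≤ p) (hcard : Fintype.card F = p ^ r) (hnp : ‖(p : Ω)‖ < 1)
    (hω : IsTeich ω) {ζ : Ω} (hζ1 : ‖ζ‖ = 1) (hζ : ‖1 - ζ‖ < 1) {ψ : AddChar F Ω}
    (hprim : ψ.IsPrimitive) (hψ1 : ψ ≠ 1)
    (N : F → ℕ) (hN : ∀ x, (N x : F) = ∑ j ∈ range r, x ^ p ^ j) (hψ : ∀ x, ψ x = ζ ^ N x)
    {M n : ℕ} (L : Fin n → Fin M → F) (c : Fin n → ℕ) (d : Fin n → ℕ)
    (hd : ∀ i, 0 < d i) (hd' : ∀ i, d i < p - 1) (hc : ∀ i, c i = d i * ∑ j ∈ range r, p ^ j) :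
    ‖∑ x : Fin M → F, ∏ i, (ω ^ c i) (∑ k, L i k * x k)‖ * ‖1 - ζ‖ ^ (r * ∑ i, d i) ≤
      ‖(p : Ω)‖ ^ (r * M) := by
  classical
  by_cases hr : r = 0
  · exfalso
    rw [hr, pow_zero] at hcard
    have := Fintype.one_lt_card (α := F)
    omega
  have hgeom : (p - 1) * ∑ j ∈ range r, p ^ j = p ^ r - 1 := by
    have := Nat.geomSum_eq hp r
    rw [this]
    exact Nat.mul_div_cancel' (Nat.sub_one_dvd_pow_sub_one p r)
  have hgpos : 0 < ∑ j ∈ range r, p ^ j := by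
    apply Finset.sum_pos
    · intro j _
      positivity
    · exact ⟨0, Finset.mem_range.mpr (Nat.pos_of_ne_zero hr)⟩
  have hclt : ∀ i, c i < Fintype.card F - 1 := by
    intro i
    rw [hc i, hcard, ← hgeom]
    exact Nat.mul_lt_mul_of_pos_right (hd' i) hgpos
  have hcpos : ∀ i, 0 < c i := by
    intro i
    rw [hc i]
    exact Nat.mul_pos (hd i) hgpos
  have hne : ∀ i, ω ^ c i ≠ 1 := by
    intro i h
    have h1 : (ω⁻¹) ^ c i = 1 := by rw [inv_pow, h, inv_one]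
    have := Nat.le_of_dvd (hcpos i) (gn_pow_eq_one hω h1)
    have := hclt i
    omega
  have hdual := gs_dual hprim (fun i => ω ^ c i) hne L
  have hlow : ∀ i, ‖1 - ζ‖ ^ (r * d i) ≤ ‖gaussSum (ω ^ c i)⁻¹ ψ‖ := by
    intro i
    have hsum : (((List.replicate (d i) (List.range r)).flatten).map (fun i => p ^ i)).sum = c i := by
      rw [hc i]
      induction d i with
      | zero => simp
      | succ k ih =>
        have hlist : (List.map (fun i => p ^ i) (List.range r)).sum = ∑ j ∈ range r, p ^ j := by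
          rfl
        rw [List.replicate_succ, List.flatten_cons, List.map_append, List.sum_append, ih, hlist]
        ring
    have hlen : ((List.replicate (d i) (List.range r)).flatten).length = r * d i := by
      simp [mul_comm]
    have h := gn_low hp hcard hnp hω hζ1 hζ hψ1 N hN hψ
      ((List.replicate (d i) (List.range r)).flatten) (by
        intro j hj
        rw [List.mem_flatten] at hj
        obtain ⟨l, hl, hjl⟩ := hj
        rw [List.mem_replicate] at hl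
        rw [hl.2] at hjl
        exact List.mem_range.mp hjl) (by rw [hsum]; exact hclt i)
    rw [hsum, hlen, inv_pow] at h
    exact h
  have hprod : ‖1 - ζ‖ ^ (r * ∑ i, d i) ≤ ∏ i, ‖gaussSum (ω ^ c i)⁻¹ ψ‖ := by
    rw [Finset.mul_sum, ← Finset.prod_pow_eq_pow_sum]
    apply Finset.prod_le_prod
    · intro i _
      positivity
    · intro i _
      exact hlow i
  calc ‖∑ x : Fin M → F, ∏ i, (ω ^ c i) (∑ k, L i k * x k)‖ * ‖1 - ζ‖ ^ (r * ∑ i, d i)
      ≤ ‖∑ x : Fin M → F, ∏ i, (ω ^ c i) (∑ k, L i k * x k)‖ *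
          ∏ i, ‖gaussSum (ω ^ c i)⁻¹ ψ‖ :=
        mul_le_mul_of_nonneg_left hprod (norm_nonneg _)
    _ = ‖(∑ x : Fin M → F, ∏ i, (ω ^ c i) (∑ k, L i k * x k)) *
          ∏ i, gaussSum (ω ^ c i)⁻¹ ψ‖ := by
        rw [norm_mul, norm_prod]
    _ ≤ ‖(p : Ω)‖ ^ (r * M) := by
        rw [hdual, norm_mul, hcard]
        have h1 : ‖((p ^ r : ℕ) : Ω) ^ M‖ = ‖(p : Ω)‖ ^ (r * M) := by
          push_cast
          rw [norm_pow, norm_pow, ← pow_mul]
        rw [h1]
        apply mul_le_of_le_one_right (by positivity)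
        apply gn_sum_le _ _ zero_le_one
        intro t _
        split_ifs
        · rw [norm_prod]
          apply Finset.prod_le_one
          · intro i _
            exact norm_nonneg _
          · intro i _
            exact gn_le_one _ _
        · simp

end norm

end Pool.Agent.TT
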