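import Mathlib

/-!
# Gauss sums and sums of characters of products of linear forms: the duality
-/

set_option autoImplicit false

namespace Pool.Agent.TT

open Finset

section general

variable {F Ω : Type} [Field F] [Fintype F] [Field Ω]

theorem gs_char_sum {ι : Type} (s : Finset ι) (ψ : AddChar F Ω) (f : ι → F) :
    ψ (∑ k ∈ s, f k) = ∏ k ∈ s, ψ (f k) := by
  classical
  induction s using Finset.induction_on with
  | empty => simp
  | insert a s ha ih => rw [Finset.sum_insert ha, Finset.prod_insert ha, AddChar.map_add_eq_mul, ih]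

/-- Expansion of a nontrivial multiplicative character by additive characters. -/
theorem gs_expand {χ : MulChar F Ω} (hχ : χ ≠ 1) (ψ : AddChar F Ω) (u : F) :
    χ u * gaussSum χ⁻¹ ψ = ∑ t : F, χ⁻¹ t * ψ (t * u) := by
  classical
  by_cases hu : u = 0
  · subst hu
    have h1 : χ⁻¹ ≠ 1 := by
      intro h
      exact hχ (inv_eq_one.mp h)
    rw [MulChar.map_zero, zero_mul]
    simp [MulChar.sum_eq_zero_of_ne_one h1]
  · have h2 := gaussSum_mulShift χ⁻¹ ψ (Units.mk0 u hu)
    have h3 : gaussSum χ⁻¹ (AddChar.mulShift ψ (Units.mk0 u hu : Fˣ)) =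
        ∑ t : F, χ⁻¹ t * ψ (t * u) := by
      unfold gaussSum
      apply Finset.sum_congr rfl
      intro t _
      rw [AddChar.mulShift_apply]
      simp [mul_comm]
    rw [← h3, ← h2]
    have h4 : χ u * χ⁻¹ u = 1 := by
      rw [← MulChar.mul_apply, mul_inv_cancel, MulChar.one_apply (isUnit_iff_ne_zero.mpr hu)]
    simp only [Units.val_mk0]
    rw [← mul_assoc, h4, one_mul]

open Classical in
/-- The basic identity: duality between the arrangement and its linear relations. -/
theorem gs_dual {ψ : AddChar F Ω} (hψ : ψ.IsPrimitive) {M n : ℕ} (χ : Fin n → MulChar F Ω)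
    (hχ : ∀ i, χ i ≠ 1) (L : Fin n → Fin M → F) :
    (∑ x : Fin M → F, ∏ i, χ i (∑ k, L i k * x k)) * ∏ i, gaussSum (χ i)⁻¹ ψ =
      (Fintype.card F : Ω) ^ M *
        ∑ t : Fin n → F, if ∀ k, ∑ i, t i * L i k = 0 then ∏ i, (χ i)⁻¹ (t i) else 0 := by
  rw [Finset.sum_mul]
  have h1 : ∀ x : Fin M → F, (∏ i, χ i (∑ k, L i k * x k)) * ∏ i, gaussSum (χ i)⁻¹ ψ =
      ∑ t : Fin n → F, (∏ i, (χ i)⁻¹ (t i)) * ψ (∑ k, (∑ i, t i * L i k) * x k) := by
    intro x
    rw [← Finset.prod_mul_distrib]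
    have h2 : ∀ i, χ i (∑ k, L i k * x k) * gaussSum (χ i)⁻¹ ψ =
        ∑ t : F, (χ i)⁻¹ t * ψ (t * ∑ k, L i k * x k) := fun i => gs_expand (hχ i) ψ _
    simp_rw [h2]
    rw [Finset.prod_univ_sum]
    simp only [Fintype.piFinset_univ]
    apply Finset.sum_congr rfl
    intro t _
    rw [Finset.prod_mul_distrib]
    congr 1
    rw [← gs_char_sum]
    congr 1
    simp_rw [Finset.mul_sum, Finset.sum_mul]
    rw [Finset.sum_comm]
    apply Finset.sum_congr rfl
    intro k _
    apply Finset.sum_congr rfl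
    intro i _
    ring
  simp_rw [h1]
  rw [Finset.sum_comm, Finset.mul_sum]
  apply Finset.sum_congr rfl
  intro t _
  rw [← Finset.mul_sum]
  have h3 : ∀ c : Fin M → F, ∑ x : Fin M → F, ψ (∑ k, c k * x k) =
      ∏ k, ∑ y : F, ψ (c k * y) := by
    intro c
    rw [Finset.prod_univ_sum]
    simp only [Fintype.piFinset_univ]
    apply Finset.sum_congr rfl
    intro x _
    rw [gs_char_sum]
  rw [h3]
  have h4 : ∀ c : F, ∑ y : F, ψ (c * y) = if c = 0 then (Fintype.card F : Ω) else 0 := by
    intro c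
    have := AddChar.sum_mulShift c hψ
    simp_rw [mul_comm _ c] at this
    rw [this]
    split_ifs <;> simp
  simp_rw [h4]
  by_cases h5 : ∀ k, ∑ i, t i * L i k = 0
  · rw [if_pos h5]
    simp_rw [h5]
    simp [mul_comm]
  · rw [if_neg h5]
    push Not at h5
    obtain ⟨k, hk⟩ := h5
    rw [Finset.prod_eq_zero (Finset.mem_univ k) (by rw [if_neg hk])]
    simp

end general

end Pool.Agent.TT
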